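import Pool.Agent.V11288.LZ.Part

/-!
# Stark's conjecture over complex cubic fields as an explicit statement on Frobenius automorphisms

Let `K` be a complex cubic field, `𝔣 ≠ 𝓞_K` a nonzero ideal, `L = K(𝔣)` the narrow ray class field,
`G = Gal(L/K)`, `𝔞 ↦ σ_𝔞` the Artin map, `e` the number of roots of unity of `L` and `v` a place of `L` above the
complex place of `K`.  Q1 asks for `u ∈ L^×` with

1. `|u|_w = 1` for every place `w` of `L` not above the complex place of `K`;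
2. `ζ_𝔣'(ρ, 0) = -(1/e) log |ρ(u)|_v` for all `ρ ∈ G`;
3. `L(u^{1/e})/K` is abelian.

Condition 2 is about the analytic continuation of the partial zeta functions to `s = 0`.  We show that it is
equivalent to an explicit statement on the distribution of the prime ideals in the classes, that is of the
Frobenius automorphisms in `G`.  For `γ > π/2`, a character `χ` of `G` and `X > 1`, with `t = k log N𝔭 / log X`, let

`W_χ(X) = ∑_{𝔭 ∤ 𝔣} ∑_{k ≥ 1} χ(σ_𝔭)^k / k · e^{iγt} / Γ(1 + t)`,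
`E_ρ(X) = |G|⁻¹ ∑_χ χ(ρ)⁻¹ exp W_χ(X)`,  `Λ_γ = ∫_0^∞ (e^{-t} - e^{iγt}/Γ(1+t)) dt/t`.

Then, for all `ρ ∈ G` and without any hypothesis on the zeros of `L`-functions:

* `ζ_𝔣'(ρ, 0) = e^{-Λ_γ} (log X) E_ρ(X) + O(1/log X)`;
* `u ∈ L^×` satisfies condition 2 if and only if `(log X) E_ρ(X) → -e^{Λ_γ} (log |ρ(u)|_v)/e` for all `ρ`;
* in this case `|ρ(u)|_v = exp(-e e^{-Λ_γ} (log X) E_ρ(X)) + O(1/log X)`, for all `ρ`;

and so Q1 for `K`, `𝔣`, `v` holds if and only if some `u ∈ L^×` satisfies 1, 3 and these limits.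

Of the analytic continuation only the following is used (hypothesis `IsPartialZeta`): the partial zeta functions are
meromorphic at the points of the real interval `[0, 1]`, and holomorphic at `0` with the value `0` there (since
`𝔣 ≠ 𝓞_K`, all `L`-functions have a zero at `0`: the complex place splits completely).

The analytic input is the law for partial zeta functions `Pool.Agent.V11288.LZ.partial_main`.
-/

set_option autoImplicit false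

namespace Pool.Agent.Results.MP_d9f52e_nt.RaySumsByPrimes

open Filter Topology Set NumberField IsDedekindDomain

variable {K L : Type} [Field K] [NumberField K] [Field L] [NumberField L] [Algebra K L]

/-- `K` is a complex cubic field: of degree `3` with one complex place (and one real place). -/
def IsComplexCubic (K : Type) [Field K] [NumberField K] : Prop :=
  Module.finrank ℚ K = 3 ∧ InfinitePlace.nrComplexPlaces K = 1

/-- `𝔞` is nonzero and prime to `𝔣`. -/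
def Prime𝔣 (𝔣 𝔞 : Ideal (𝓞 K)) : Prop :=
  𝔞 ≠ 0 ∧ ∀ v : HeightOneSpectrum (𝓞 K), v.asIdeal ∣ 𝔣 → ¬ v.asIdeal ∣ 𝔞

/-- `g` is the Frobenius automorphism of a prime `Q` of `L` above `v`: `g(x) ≡ x^(N v)` modulo `Q`. -/
def IsFrobenius (v : HeightOneSpectrum (𝓞 K)) (g : L ≃ₐ[K] L) : Prop :=
  ∃ Q : Ideal (𝓞 L), Q.IsPrime ∧ Q.comap (algebraMap (𝓞 K) (𝓞 L)) = v.asIdeal ∧
    ∀ x y : 𝓞 L, (y : L) = g (x : L) → y - x ^ Ideal.absNorm v.asIdeal ∈ Q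

/-- `L` (abelian over `K`) is the narrow ray class field `K(𝔣)`, with the Artin map `art`: the primes not dividing
`𝔣` are unramified, `art` is multiplicative and maps them to their Frobenius automorphisms, it is surjective, and
`art 𝔞 = art 𝔟` iff `α𝔞 = β𝔟` for some `α, β ∈ 𝓞_K` prime to `𝔣` with `α ≡ β` modulo `𝔣` and `α/β > 0` at the real
place. -/
structure IsNarrowRayClassField (𝔣 : Ideal (𝓞 K)) (art : Ideal (𝓞 K) → (L ≃ₐ[K] L)) : Prop where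
  mul : ∀ 𝔞 𝔟, Prime𝔣 𝔣 𝔞 → Prime𝔣 𝔣 𝔟 → art (𝔞 * 𝔟) = art 𝔞 * art 𝔟
  unramified : ∀ v : HeightOneSpectrum (𝓞 K), ¬ v.asIdeal ∣ 𝔣 →
    Squarefree (v.asIdeal.map (algebraMap (𝓞 K) (𝓞 L)))
  frobenius : ∀ v : HeightOneSpectrum (𝓞 K), ¬ v.asIdeal ∣ 𝔣 → IsFrobenius v (art v.asIdeal)
  surj : ∀ ρ : L ≃ₐ[K] L, ∃ 𝔞, Prime𝔣 𝔣 𝔞 ∧ art 𝔞 = ρ
  eq_iff : ∀ 𝔞 𝔟, Prime𝔣 𝔣 𝔞 → Prime𝔣 𝔣 𝔟 → (art 𝔞 = art 𝔟 ↔
    ∃ α β : 𝓞 K, Prime𝔣 𝔣 (Ideal.span {α}) ∧ Prime𝔣 𝔣 (Ideal.span {β}) ∧ α - β ∈ 𝔣 ∧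
      (∀ σ : K →+* ℝ, 0 < σ α * σ β) ∧ Ideal.span {α} * 𝔞 = Ideal.span {β} * 𝔟)

/-- `Z(s) = ζ_𝔣(ρ, s)`: it is the sum of `N𝔞^{-s}` over the integral ideals `𝔞` prime to `𝔣` with `σ_𝔞 = ρ` for
`Re s > 1`, it is meromorphic at the points of the real interval `[0, 1]`, and holomorphic at `0` with value `0`. -/
structure IsPartialZeta {G : Type} (𝔣 : Ideal (𝓞 K)) (art : Ideal (𝓞 K) → G) (ρ : G) (Z : ℂ → ℂ) :
    Prop where
  mero : ∀ x ∈ Icc (0 : ℝ) 1, MeromorphicAt Z (x : ℂ)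
  sum : ∀ s : ℂ, 1 < s.re → Z s =
    ∑' 𝔞 : {𝔞 : Ideal (𝓞 K) // Prime𝔣 𝔣 𝔞 ∧ art 𝔞 = ρ}, ((Ideal.absNorm 𝔞.1 : ℕ) : ℂ) ^ (-s)
  hol : AnalyticAt ℂ Z 0
  zero : Z 0 = 0

/-- Condition 1 of Q1: `|u|_w = 1` for all finite places `w` of `L` (`u` is a unit) and for all infinite places
`w` of `L` above the real place of `K`. -/
def Condition1 (K : Type) {L : Type} [Field K] [Field L] [NumberField L] [Algebra K L] (u : L) : Prop :=
  (∃ ε : (𝓞 L)ˣ, ((ε : 𝓞 L) : L) = u) ∧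
    ∀ w : InfinitePlace L, (w.comap (algebraMap K L)).IsReal → w u = 1

/-- Condition 2 of Q1: `ζ_𝔣'(ρ, 0) = -(1/e) log |ρ(u)|_v` for all `ρ`, where `|x|_v` is the square of the usual
absolute value. -/
def Condition2 (Z : (L ≃ₐ[K] L) → ℂ → ℂ) (v : InfinitePlace L) (u : L) : Prop :=
  ∀ ρ : L ≃ₐ[K] L, deriv (Z ρ) 0 =
    ((-(1 / (Units.torsionOrder L : ℝ)) * Real.log (v (ρ u) ^ 2) : ℝ) : ℂ)

/-- Condition 3 of Q1: `L(u^{1/e})` is abelian over `K`, that is an abelian extension `M` of `K` contains `L` and an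
`e`-th root of `u`. -/
def Condition3 (K : Type) {L : Type} [Field K] [Field L] [NumberField L] [Algebra K L] (u : L) : Prop :=
  ∃ (M : Type) (_ : Field M) (_ : Algebra K M) (_ : Algebra L M) (_ : IsScalarTower K L M),
    IsAbelianGalois K M ∧ ∃ y : M, y ^ Units.torsionOrder L = algebraMap L M u

section group

variable {G : Type} [Group G]

/-- The term of `W_χ(X)` at `(𝔭, k)`. -/
noncomputable def term (art : Ideal (𝓞 K) → G) (χ : G →* ℂˣ) (γ X : ℝ)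
    (v : HeightOneSpectrum (𝓞 K)) (k : ℕ) : ℂ :=
  ((χ (art v.asIdeal) : ℂˣ) : ℂ) ^ k / k *
    (Complex.exp ((γ * (k * Real.log (Ideal.absNorm v.asIdeal) / Real.log X) : ℝ) * Complex.I) /
      (Real.Gamma (1 + k * Real.log (Ideal.absNorm v.asIdeal) / Real.log X) : ℂ))

/-- `W_χ(X)`, the sum over the primes not dividing `𝔣` and `k ≥ 1` (here `k = x.2 + 1`). -/
noncomputable def W (𝔣 : Ideal (𝓞 K)) (art : Ideal (𝓞 K) → G) (χ : G →* ℂˣ) (γ X : ℝ) : ℂ :=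
  ∑' x : {v : HeightOneSpectrum (𝓞 K) // ¬ v.asIdeal ∣ 𝔣} × ℕ, term art χ γ X x.1.1 (x.2 + 1)

/-- `E_ρ(X) = |G|⁻¹ ∑_χ χ(ρ⁻¹) exp W_χ(X)`. -/
noncomputable def E (𝔣 : Ideal (𝓞 K)) (art : Ideal (𝓞 K) → G) (γ X : ℝ) (ρ : G) : ℂ :=
  (∑ᶠ χ : G →* ℂˣ, ((χ ρ⁻¹ : ℂˣ) : ℂ) * Complex.exp (W 𝔣 art χ γ X)) / Nat.card G

end group

/-- `Λ_γ = ∫_0^∞ (e^{-t} - e^{iγt} / Γ(1 + t)) dt / t`. -/
noncomputable def Lam (γ : ℝ) : ℂ := ∫ t in Ioi (0 : ℝ),
  (Complex.exp (-(t : ℂ)) - Complex.exp ((γ * t : ℝ) * Complex.I) * ((Real.Gamma (1 + t))⁻¹ : ℝ)) / t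

/-- The limits which replace condition 2: `(log X) E_ρ(X) → -e^{Λ_γ} (log |ρ(u)|_v)/e` for all `ρ`. -/
def PrimeLimits (𝔣 : Ideal (𝓞 K)) (art : Ideal (𝓞 K) → (L ≃ₐ[K] L)) (γ : ℝ) (v : InfinitePlace L)
    (u : L) : Prop :=
  ∀ ρ : L ≃ₐ[K] L, Tendsto (fun X : ℝ => Real.log X * E 𝔣 art γ X ρ) atTop
    (𝓝 (-(Complex.exp (Lam γ) * Real.log (v (ρ u) ^ 2)) / Units.torsionOrder L))

open Pool.Agent.V11288.LZ

section proof

variable {G : Type} [CommGroup G]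

theorem term_eq (art : Ideal (𝓞 K) → G) (χ : G →* ℂˣ) (γ X : ℝ) (v : HeightOneSpectrum (𝓞 K))
    (k : ℕ) : cterm art 0 χ γ X v k = term art χ γ X v k := by
  unfold cterm term wt
  rw [Real.rpow_zero, Complex.ofReal_one, one_pow, mul_one]

theorem W_eq (𝔣 : Ideal (𝓞 K)) (art : Ideal (𝓞 K) → G) (χ : G →* ℂˣ) (γ X : ℝ) :
    cW {v | v.asIdeal ∣ 𝔣} art 0 χ γ X = W 𝔣 art χ γ X :=
  tsum_congr fun x => term_eq art χ γ X x.1.1 (x.2 + 1)

theorem E_eq [Finite G] (𝔣 : Ideal (𝓞 K)) (art : Ideal (𝓞 K) → G) (γ X : ℝ) (ρ : G) :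
    dftinv (fun χ => Complex.exp (cW {v | v.asIdeal ∣ 𝔣} art 0 χ γ X)) ρ = E 𝔣 art γ X ρ := by
  unfold dftinv E
  simp only [W_eq]

/-- `Z(s)/s → Z'(0)`. -/
theorem lim_deriv {Z : ℂ → ℂ} (h : AnalyticAt ℂ Z 0) (h0 : Z 0 = 0) :
    Tendsto (fun s : ℂ => Z s / (s - ((0 : ℝ) : ℂ)) ^ (1 : ℤ)) (𝓝[≠] ((0 : ℝ) : ℂ)) (𝓝 (deriv Z 0)) := by
  have h1 := hasDerivAt_iff_tendsto_slope.1 h.differentiableAt.hasDerivAt
  rw [Complex.ofReal_zero]
  refine h1.congr fun s => ?_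
  rw [slope_def_field, h0, sub_zero, sub_zero, zpow_one]

theorem main [Finite G] (𝔣 : Ideal (𝓞 K)) (art : Ideal (𝓞 K) → G)
    (hmul : ∀ 𝔞 𝔟, Prime𝔣 𝔣 𝔞 → Prime𝔣 𝔣 𝔟 → art (𝔞 * 𝔟) = art 𝔞 * art 𝔟) (Z : G → ℂ → ℂ)
    (hZ : ∀ ρ, IsPartialZeta 𝔣 art ρ (Z ρ)) {γ : ℝ} (hγ : Real.pi / 2 < γ) (ρ : G) :
    (fun X : ℝ => Real.log X * E 𝔣 art γ X ρ - Complex.exp (Lam γ) * deriv (Z ρ) 0) =O[atTop]
      (fun X : ℝ => 1 / Real.log X) := by
  have h := (partial_main (S := {v | v.asIdeal ∣ 𝔣}) (cls := art) (ζ := Z)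
    (fun 𝔞 𝔟 h h' => hmul 𝔞 𝔟 h h') 0 (fun g x hx => (hZ g).mero x hx)
    (fun g s hs => (hZ g).sum s hs) hγ 1 (fun ρ => deriv (Z ρ) 0)).2
    (fun g => lim_deriv (hZ g).hol (hZ g).zero) ρ
  simp only [E_eq, zpow_one, Int.cast_one, one_mul] at h
  exact h

end proof

/-- The commutative group structure of `Gal(L/K)`. -/
@[reducible] noncomputable def cgr (K L : Type) [Field K] [Field L] [Algebra K L]
    [IsAbelianGalois K L] : CommGroup (L ≃ₐ[K] L) :=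
  { (inferInstance : Group (L ≃ₐ[K] L)) with mul_comm := fun a b => mul_comm' a b }

theorem lim_of_rate {f : ℝ → ℂ} {z : ℂ} (h : (fun X : ℝ => f X - z) =O[atTop]
    (fun X : ℝ => 1 / Real.log X)) : Tendsto f atTop (𝓝 z) := by
  have h1 := (h.trans_tendsto (tendsto_const_nhds.div_atTop Real.tendsto_log_atTop)).add_const z
  simpa using h1

/-- **Stark's conjecture over complex cubic fields in terms of Frobenius automorphisms.** -/
theorem result (_ : IsComplexCubic K) [IsAbelianGalois K L] (𝔣 : Ideal (𝓞 K)) (_ : 𝔣 ≠ ⊥) (_ : 𝔣 ≠ ⊤)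
    (art : Ideal (𝓞 K) → (L ≃ₐ[K] L)) (hart : IsNarrowRayClassField 𝔣 art)
    (v : InfinitePlace L) (_ : (v.comap (algebraMap K L)).IsComplex)
    (Z : (L ≃ₐ[K] L) → ℂ → ℂ) (hZ : ∀ ρ, IsPartialZeta 𝔣 art ρ (Z ρ)) (γ : ℝ)
    (hγ : Real.pi / 2 < γ) :
    (∀ ρ : L ≃ₐ[K] L, (fun X : ℝ => Complex.exp (-Lam γ) * (Real.log X * E 𝔣 art γ X ρ) -
      deriv (Z ρ) 0) =O[atTop] (fun X : ℝ => 1 / Real.log X)) ∧
    (∀ u : L, u ≠ 0 → (Condition2 Z v u ↔ PrimeLimits 𝔣 art γ v u)) ∧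
    (∀ u : L, u ≠ 0 → Condition2 Z v u → ∀ ρ : L ≃ₐ[K] L,
      (fun X : ℝ => Complex.exp (-Units.torsionOrder L * (Complex.exp (-Lam γ) *
        (Real.log X * E 𝔣 art γ X ρ))) - ((v (ρ u) ^ 2 : ℝ) : ℂ)) =O[atTop]
          (fun X : ℝ => 1 / Real.log X)) ∧
    ((∃ u : L, u ≠ 0 ∧ Condition1 K u ∧ Condition2 Z v u ∧ Condition3 K u) ↔
      ∃ u : L, u ≠ 0 ∧ Condition1 K u ∧ PrimeLimits 𝔣 art γ v u ∧ Condition3 K u) := by
  have hm : ∀ ρ : L ≃ₐ[K] L, (fun X : ℝ => Real.log X * E 𝔣 art γ X ρ -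
      Complex.exp (Lam γ) * deriv (Z ρ) 0) =O[atTop] (fun X : ℝ => 1 / Real.log X) :=
    @main K _ _ (L ≃ₐ[K] L) (cgr K L) _ 𝔣 art hart.mul Z hZ γ hγ
  have hexp : Complex.exp (-Lam γ) * Complex.exp (Lam γ) = 1 := by
    rw [← Complex.exp_add, neg_add_cancel, Complex.exp_zero]
  have hexp0 : Complex.exp (Lam γ) ≠ 0 := Complex.exp_ne_zero _
  have h1 : ∀ ρ : L ≃ₐ[K] L, (fun X : ℝ => Complex.exp (-Lam γ) * (Real.log X * E 𝔣 art γ X ρ) -
      deriv (Z ρ) 0) =O[atTop] (fun X : ℝ => 1 / Real.log X) := by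
    intro ρ
    refine ((hm ρ).const_mul_left (Complex.exp (-Lam γ))).congr_left fun X => ?_
    linear_combination -(deriv (Z ρ) 0) * hexp
  have h2 : ∀ u : L, u ≠ 0 → (Condition2 Z v u ↔ PrimeLimits 𝔣 art γ v u) := by
    intro u _
    unfold Condition2 PrimeLimits
    refine forall_congr' fun ρ => ?_
    have hval : Complex.exp (Lam γ) *
        ((-(1 / (Units.torsionOrder L : ℝ)) * Real.log (v (ρ u) ^ 2) : ℝ) : ℂ) =
        -(Complex.exp (Lam γ) * Real.log (v (ρ u) ^ 2)) / Units.torsionOrder L := by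
      push_cast
      ring
    constructor
    · intro h
      have h3 := lim_of_rate (hm ρ)
      rw [h, hval] at h3
      exact h3
    · intro h
      have h3 := tendsto_nhds_unique (lim_of_rate (hm ρ)) h
      rw [← hval] at h3
      exact mul_left_cancel₀ hexp0 h3
  have h3 : ∀ u : L, u ≠ 0 → Condition2 Z v u → ∀ ρ : L ≃ₐ[K] L,
      (fun X : ℝ => Complex.exp (-Units.torsionOrder L * (Complex.exp (-Lam γ) *
        (Real.log X * E 𝔣 art γ X ρ))) - ((v (ρ u) ^ 2 : ℝ) : ℂ)) =O[atTop]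
          (fun X : ℝ => 1 / Real.log X) := by
    intro u hu h ρ
    have he : ((Units.torsionOrder L : ℕ) : ℂ) ≠ 0 := by
      exact_mod_cast (Units.torsionOrder_ne_zero L)
    have hpos : 0 < v (ρ u) ^ 2 := by
      have h4 : ρ u ≠ 0 := by simpa using hu
      have h5 : 0 < v (ρ u) := InfinitePlace.pos_iff.2 h4
      positivity
    have hexp2 : ((v (ρ u) ^ 2 : ℝ) : ℂ) =
        Complex.exp (-Units.torsionOrder L * deriv (Z ρ) 0) := by
      rw [h ρ]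
      have h6 : -(Units.torsionOrder L : ℂ) *
          ((-(1 / (Units.torsionOrder L : ℝ)) * Real.log (v (ρ u) ^ 2) : ℝ) : ℂ) =
          ((Real.log (v (ρ u) ^ 2) : ℝ) : ℂ) := by
        push_cast
        field_simp
      rw [h6, ← Complex.ofReal_exp, Real.exp_log hpos]
    set d : ℝ → ℂ := fun X => -(Units.torsionOrder L : ℂ) *
      (Complex.exp (-Lam γ) * (Real.log X * E 𝔣 art γ X ρ) - deriv (Z ρ) 0) with hd
    have hdO : d =O[atTop] (fun X : ℝ => 1 / Real.log X) := (h1 ρ).const_mul_left _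
    have hd0 : Tendsto d atTop (𝓝 0) :=
      hdO.trans_tendsto (tendsto_const_nhds.div_atTop Real.tendsto_log_atTop)
    have h4 : ∀ X : ℝ, Complex.exp (-Units.torsionOrder L * (Complex.exp (-Lam γ) *
        (Real.log X * E 𝔣 art γ X ρ))) - ((v (ρ u) ^ 2 : ℝ) : ℂ) =
        Complex.exp (-Units.torsionOrder L * deriv (Z ρ) 0) * (Complex.exp (d X) - 1) := by
      intro X
      rw [hexp2, mul_sub, mul_one, ← Complex.exp_add, hd]
      congr 2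
      ring
    refine Asymptotics.IsBigO.congr_left ?_ fun X => (h4 X).symm
    refine Asymptotics.IsBigO.const_mul_left ?_ _
    refine Asymptotics.IsBigO.trans (g := d) ?_ hdO
    refine Asymptotics.IsBigO.of_bound 2 ?_
    filter_upwards [hd0.norm.eventually (eventually_le_nhds (b := (1 : ℝ)) (by simp))] with X hX
    exact Complex.norm_exp_sub_one_le hX
  refine ⟨h1, h2, h3, ?_⟩
  constructor
  · rintro ⟨u, hu, ha, hb, hc⟩
    exact ⟨u, hu, ha, (h2 u hu).1 hb, hc⟩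
  · rintro ⟨u, hu, ha, hb, hc⟩
    exact ⟨u, hu, ha, (h2 u hu).2 hb, hc⟩

end Pool.Agent.Results.MP_d9f52e_nt.RaySumsByPrimes
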